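import Pool.Agent.Lib.MP_e2be92_co.PX.Fin

/-! Signs that keep every initial sum of `n` contractions of size `n` small, along several
orderings at once. -/

namespace Pool.Agent.Results.MP_e2be92_co.PartialSums

theorem result :
    ∃ C : ℝ, 0 < C ∧ ∀ (n w : ℕ)
      (A : Fin n → (EuclideanSpace ℝ (Fin n) →L[ℝ] EuclideanSpace ℝ (Fin n))),
      (∀ i, ‖A i‖ ≤ 1) → ∀ π : Fin w → Equiv.Perm (Fin n),
      ∃ ε : Fin n → ℝ, (∀ i, ε i = 1 ∨ ε i = -1) ∧ ∀ (o : Fin w) (t : ℕ),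
        ‖∑ s ∈ Finset.univ.filter (fun s : Fin n => s.val < t), ε (π o s) • A (π o s)‖ ≤
          C * (w : ℝ) ^ (2 / 5 : ℝ) * Real.sqrt n :=
  ⟨1440000000, by norm_num, fun n w A hA π => Pool.Agent.MS.px_main n w A hA π⟩

end Pool.Agent.Results.MP_e2be92_co.PartialSums
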